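import Pool.Agent.Q199.RN.Null

/-!
# Convex-transitive norms on Hilbertian spaces: isometries tending weakly to zero and the
asymptotic parallelogram law

Let `E` be an infinite-dimensional real Banach space, isomorphic to a Hilbert space, with
convex-transitive norm.

1. There are surjective linear isometries which tend to `0` in the weak operator topology.
2. If the parallelogram law holds asymptotically (up to `ε` on a weak neighbourhood of zero of the
   unit ball, for example on a closed subspace of finite codimension), then it holds exactly.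
3. The same conclusion holds if for one equivalent inner product the isometries are uniformly
   Hilbert-Schmidt close to preserving it.

Proof: a fixed point theorem of Ryll-Nardzewski type for bounded convex sets of Hilbert-Schmidt
forms (minimal invariant compact convex set, small slices by the parallelogram law for the
Hilbert-Schmidt norm).  If no isometry is small on given vectors and functionals, the fixed point is
a nonzero invariant Hilbert-Schmidt form, and by convex transitivity it is the squared norm.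
-/

set_option autoImplicit false

open scoped RealInnerProductSpace

namespace Pool.Agent.Results.MP_cc72b1_an.AsymptoticParallelogramLaw

theorem result :
    ∀ (E : Type) [NormedAddCommGroup E] [NormedSpace ℝ E] [CompleteSpace E]
      (H : Type) [NormedAddCommGroup H] [InnerProductSpace ℝ H] [CompleteSpace H],
      ¬ FiniteDimensional ℝ E → Nonempty (E ≃L[ℝ] H) →
      (∀ x y : E, ‖x‖ = 1 → ‖y‖ = 1 →
        y ∈ closure (convexHull ℝ {z : E | ∃ T : E ≃ₗᵢ[ℝ] E, T x = z})) →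
      (∀ (X : Finset E) (F : Finset (E →L[ℝ] ℝ)) (ε : ℝ), 0 < ε →
        ∃ T : E ≃ₗᵢ[ℝ] E, ∀ x ∈ X, ∀ f ∈ F, |f (T x)| < ε) ∧
      List.TFAE [
        ∃ (F : Type) (_ : NormedAddCommGroup F) (_ : InnerProductSpace ℝ F)
          (_ : CompleteSpace F), Nonempty (E ≃ₗᵢ[ℝ] F),
        ∀ ε : ℝ, 0 < ε → ∃ (s : Finset (E →L[ℝ] ℝ)) (δ : ℝ), 0 < δ ∧ ∀ x y : E, ‖x‖ ≤ 1 →
          ‖y‖ ≤ 1 → (∀ f ∈ s, |f x| < δ ∧ |f y| < δ) →
          |‖x + y‖ ^ 2 + ‖x - y‖ ^ 2 - 2 * ‖x‖ ^ 2 - 2 * ‖y‖ ^ 2| ≤ ε,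
        ∃ (F : Type) (_ : NormedAddCommGroup F) (_ : InnerProductSpace ℝ F)
          (_ : CompleteSpace F) (Φ : E ≃L[ℝ] F) (ι : Type) (b : HilbertBasis ι ℝ F) (C : ℝ),
          ∀ (T : E ≃ₗᵢ[ℝ] E) (S : Finset ι), ∑ i ∈ S, ∑ j ∈ S,
            (⟪Φ (T (Φ.symm (b i))), Φ (T (Φ.symm (b j)))⟫ - ⟪b i, b j⟫) ^ 2 ≤ C] := by
  intro E _ _ _ H _ _ _ hinf hΦ hct
  obtain ⟨Φ⟩ := hΦ
  have hnt : Nontrivial E := by
    by_contra hn
    rw [not_nontrivial_iff_subsingleton] at hn
    exact hinf inferInstance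
  refine ⟨fun X F ε hε => Pool.Agent.Q199.RN.null hinf Φ hct X F hε, ?_⟩
  tfae_have 1 → 2 := by
    rintro ⟨F, _, _, _, ⟨Ψ⟩⟩ ε hε
    refine ⟨∅, 1, one_pos, fun x y _ _ _ => ?_⟩
    have h1 := parallelogram_law_with_norm ℝ (Ψ x) (Ψ y)
    rw [← map_add, ← map_sub, Ψ.norm_map, Ψ.norm_map, Ψ.norm_map, Ψ.norm_map] at h1
    have h2 : ‖x + y‖ ^ 2 + ‖x - y‖ ^ 2 - 2 * ‖x‖ ^ 2 - 2 * ‖y‖ ^ 2 = 0 := by nlinarith
    rw [h2, abs_zero]
    exact hε.le
  tfae_have 2 → 1 := by
    intro h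
    exact ⟨E, inferInstance, InnerProductSpace.ofNorm ℝ
      (Pool.Agent.Q199.RN.asym hinf Φ hct h), inferInstance, ⟨LinearIsometryEquiv.refl ℝ E⟩⟩
  tfae_have 1 → 3 := by
    rintro ⟨F, _, _, _, ⟨Ψ⟩⟩
    obtain ⟨w, b, -⟩ := exists_hilbertBasis ℝ F
    refine ⟨F, inferInstance, inferInstance, inferInstance, Ψ.toContinuousLinearEquiv, w, b, 0,
      fun T S => le_of_eq (Finset.sum_eq_zero fun i _ => Finset.sum_eq_zero fun j _ => ?_)⟩
    have h1 : ⟪((Ψ.symm.trans T).trans Ψ) (b i), ((Ψ.symm.trans T).trans Ψ) (b j)⟫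
        = ⟪b i, b j⟫ := LinearIsometryEquiv.inner_map_map _ _ _
    have h2 : ⟪Ψ (T (Ψ.symm (b i))), Ψ (T (Ψ.symm (b j)))⟫ = ⟪b i, b j⟫ := h1
    show (⟪Ψ (T (Ψ.symm (b i))), Ψ (T (Ψ.symm (b j)))⟫ - ⟪b i, b j⟫) ^ 2 = 0
    rw [h2, sub_self]
    norm_num
  tfae_have 3 → 1 := by
    rintro ⟨F, _, _, _, Ψ, ι, b, C, h⟩
    exact ⟨E, inferInstance, InnerProductSpace.ofNorm ℝ
      (Pool.Agent.Q199.RN.hs Ψ b hct h), inferInstance, ⟨LinearIsometryEquiv.refl ℝ E⟩⟩
  tfae_finish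

end Pool.Agent.Results.MP_cc72b1_an.AsymptoticParallelogramLaw
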