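import Pool.Agent.Q199.AI.Fin

/-!
# Banach-Mazur rotation problem: asymptotically isotropic norms

(1) Let `E` be an infinite-dimensional separable Banach space with transitive norm whose unit ball is sequentially
compact for some Hausdorff vector topology (given by the injection `j`), and assume that for bounded null sequences
`w n` of this topology the limit of `‖u + w n‖` is a function `N` of `‖u‖` and the limit of `‖w n‖` only. Then `E` is a
Hilbert space.

(2) If `E` is reflexive and the topology is the weak topology it is enough to assume this at ONE point `x₀` of the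
sphere: for every weakly null sequence `w n` of unit vectors `‖x₀ + t w n‖` converges to `M t`, `t ≥ 0`.

Proof. (2) follows from (1) by moving `x₀` by isometries. Comparing `u + (v + w)` and `(u + v) + w` for consecutively
far away vectors one finds that `N` is homogeneous and associative. The numbers `s (n + 1) = N (s n) 1` are monotone and
multiplicative, so either `s n = n ^ c` with `c > 0`, and `N a b = (a ^ (1 / c) + b ^ (1 / c)) ^ c`, or `N a b` is the
maximum of `a` and `b`. In the second case `E` contains signed sums `S k` of asymptotically disjoint unit vectors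
`z (m i)` with `‖S k - 2 z (m i)‖ ≤ 3 / 2`, and a limit `s` of them contradicts `‖s - 2 z (m i)‖ → N ‖s‖ 2 ≥ 2`. In the
first case the gauge `t ^ (1 / c)` is asymptotically additive and the theorem `parv_of_tau` (starting files
`Pool/Agent/H770R2/Maz*`, used in `AsympAdditive`) applies.
-/

set_option autoImplicit false

namespace Pool.Agent.Results.MP_cc72b1_an.AsymptoticallyIsotropic

open Filter Topology

theorem result :
    ∀ (E : Type) [NormedAddCommGroup E] [NormedSpace ℝ E] [CompleteSpace E]
      [TopologicalSpace.SeparableSpace E],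
      ¬ FiniteDimensional ℝ E →
      (∀ x y : E, ‖x‖ = 1 → ‖y‖ = 1 → ∃ T : E ≃ₗᵢ[ℝ] E, T x = y) →
      -- (1) isotropy for some vector topology with sequentially compact ball
      ((∃ (V : Type) (_ : AddCommGroup V) (_ : Module ℝ V) (_ : TopologicalSpace V)
          (_ : IsTopologicalAddGroup V) (_ : ContinuousSMul ℝ V) (_ : T2Space V) (j : E →ₗ[ℝ] V)
          (N : ℝ → ℝ → ℝ), Function.Injective j ∧
          (∀ u : ℕ → E, (∀ n, ‖u n‖ ≤ 1) → ∃ a : E, ‖a‖ ≤ 1 ∧ ∃ φ : ℕ → ℕ, StrictMono φ ∧
            Tendsto (fun k => j (u (φ k))) atTop (𝓝 (j a))) ∧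
          ∀ (u : E) (w : ℕ → E) (b : ℝ), Tendsto (fun n => j (w n)) atTop (𝓝 0) →
            Tendsto (fun n => ‖w n‖) atTop (𝓝 b) →
            Tendsto (fun n => ‖u + w n‖) atTop (𝓝 (N ‖u‖ b))) ∨
      -- (2) isotropy at one point for the weak topology
        (Function.Surjective (NormedSpace.inclusionInDoubleDual ℝ E) ∧
          ∃ (x₀ : E) (M : ℝ → ℝ), ‖x₀‖ = 1 ∧ ∀ w : ℕ → E, (∀ n, ‖w n‖ = 1) →
            (∀ f : E →L[ℝ] ℝ, Tendsto (fun n => f (w n)) atTop (𝓝 0)) →
            ∀ t : ℝ, 0 ≤ t → Tendsto (fun n => ‖x₀ + t • w n‖) atTop (𝓝 (M t)))) →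
      ∃ (H : Type) (_ : NormedAddCommGroup H) (_ : InnerProductSpace ℝ H) (_ : CompleteSpace H),
        Nonempty (E ≃ₗᵢ[ℝ] H) := by
  intro E _ _ _ _ hinf htr h
  have key : ∀ x y : E,
      ‖x + y‖ * ‖x + y‖ + ‖x - y‖ * ‖x - y‖ = 2 * (‖x‖ * ‖x‖ + ‖y‖ * ‖y‖) := by
    rcases h with ⟨V, _, _, _, _, _, _, j, N, hj, hK, hA⟩ | ⟨hr, x₀, M, hx, hA⟩
    · exact Pool.Agent.Q199.AI.main hinf hj hK htr hA
    · exact Pool.Agent.Q199.AI.main_point hinf hr htr hx hA
  exact ⟨E, inferInstance, InnerProductSpace.ofNorm ℝ key, inferInstance,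
    ⟨LinearIsometryEquiv.refl ℝ E⟩⟩

end Pool.Agent.Results.MP_cc72b1_an.AsymptoticallyIsotropic
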