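import Pool.Agent.Q199.BD.Main

/-!
# Second differences of a transitive norm at one point (Mazur's rotation problem)

A real Banach space `E` (of any density character) with transitive norm is isomorphic to a Hilbert
space if and only if its norm has, at one single point of the unit sphere, second differences
`‖x + t w‖ + ‖x - t w‖ - 2 = O(t²)` in a non-meagre set of directions `w`, and the dual norm has the
same property at one single point of the dual unit sphere.  In this case the estimates hold at all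
points of both spheres, in all directions, with one constant.
-/

set_option autoImplicit false

open Topology

namespace Pool.Agent.Results.MP_cc72b1_an.BoundedSecondDifferences

theorem result :
    ∀ (E : Type) [NormedAddCommGroup E] [NormedSpace ℝ E] [CompleteSpace E] [Nontrivial E],
      (∀ x y : E, ‖x‖ = 1 → ‖y‖ = 1 → ∃ T : E ≃ₗᵢ[ℝ] E, T x = y) →
      List.TFAE [
        ∃ (H : Type) (_ : NormedAddCommGroup H) (_ : InnerProductSpace ℝ H)
          (_ : CompleteSpace H), Nonempty (E ≃L[ℝ] H),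
        (∃ x : E, ‖x‖ = 1 ∧ ¬ IsMeagre {w : E |
          (fun t : ℝ => ‖x + t • w‖ + ‖x - t • w‖ - 2) =O[𝓝 0] fun t : ℝ => t ^ 2}) ∧
        (∃ g : StrongDual ℝ E, ‖g‖ = 1 ∧ ¬ IsMeagre {h : StrongDual ℝ E |
          (fun t : ℝ => ‖g + t • h‖ + ‖g - t • h‖ - 2) =O[𝓝 0] fun t : ℝ => t ^ 2}),
        ∃ K : ℝ, (∀ x w : E, ‖x‖ = 1 → ‖x + w‖ + ‖x - w‖ - 2 ≤ K * ‖w‖ ^ 2) ∧
          ∀ g h : StrongDual ℝ E, ‖g‖ = 1 → ‖g + h‖ + ‖g - h‖ - 2 ≤ K * ‖h‖ ^ 2] := by
  intro E _ _ _ _ htr
  tfae_have 1 → 3 := by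
    rintro ⟨H, _, _, _, ⟨Φ⟩⟩
    obtain ⟨K, -, h1, h2⟩ := Pool.Agent.Q199.BD.nec htr Φ
    refine ⟨K, fun x w hx => ?_, fun g h hg => ?_⟩
    · have := h1 x w hx
      unfold Pool.H755R2.MT.dl at this
      rwa [hx, mul_one] at this
    · have := h2 g h hg
      unfold Pool.H755R2.MT.dl at this
      rwa [hg, mul_one] at this
  tfae_have 3 → 2 := by
    rintro ⟨K, h1, h2⟩
    obtain ⟨x, hx⟩ := exists_norm_eq E (zero_le_one (α := ℝ))
    obtain ⟨g, hg⟩ := exists_norm_eq (StrongDual ℝ E) (zero_le_one (α := ℝ))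
    refine ⟨⟨x, hx, ?_⟩, ⟨g, hg, ?_⟩⟩
    · have : {w : E | (fun t : ℝ => ‖x + t • w‖ + ‖x - t • w‖ - 2) =O[𝓝 0]
          fun t : ℝ => t ^ 2} = Set.univ := by
        rw [Set.eq_univ_iff_forall]
        refine Pool.Agent.Q199.BD.isBigO_of_bound x hx (K := K) fun w => ?_
        unfold Pool.H755R2.MT.dl
        rw [hx, mul_one]
        exact h1 x w hx
      rw [this]
      exact not_isMeagre_of_isOpen isOpen_univ Set.univ_nonempty
    · have : {h : StrongDual ℝ E | (fun t : ℝ => ‖g + t • h‖ + ‖g - t • h‖ - 2) =O[𝓝 0]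
          fun t : ℝ => t ^ 2} = Set.univ := by
        rw [Set.eq_univ_iff_forall]
        refine Pool.Agent.Q199.BD.isBigO_of_bound g hg (K := K) fun w => ?_
        unfold Pool.H755R2.MT.dl
        rw [hg, mul_one]
        exact h2 g w hg
      rw [this]
      exact not_isMeagre_of_isOpen isOpen_univ Set.univ_nonempty
  tfae_have 2 → 1 := by
    rintro ⟨⟨x, hx, h1⟩, ⟨g, hg, h2⟩⟩
    exact Pool.Agent.Q199.BD.suff htr hx h1 hg h2
  tfae_finish

end Pool.Agent.Results.MP_cc72b1_an.BoundedSecondDifferences
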