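import Pool.Agent.Q199.IM.Fwd
import Pool.Agent.Q199.IM.Bwd

/-!
# Banach-Mazur rotation problem: invariant means on the sphere

Let `E` be an infinite-dimensional separable Banach space with transitive norm which is isomorphic to a Hilbert space.
Consider the bounded functions `φ` on the unit sphere which vary slowly along the isometry group: for some vectors
`e 0, ..., e (m - 1)` and `K`, `|φ (T x) - φ x| ≤ K ∑ ‖T (e i) - e i‖` for all isometries `T` and all unit vectors `x`.
`E` is isometric to a Hilbert space if and only if these functions have a mean which is invariant under all isometries.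
(The sphere is the homogeneous space of the isometry group by the stabilizer of a point, so this is co-amenability of the
stabilizers; the starting file `NullOrbits` has the case of amenable isometry groups.)

Proof. If `E` is a Hilbert space, the limit of `φ (h n)` along an ultrafilter, `h` an orthonormal sequence, is such a
mean: `h n` can be moved to `T (h n)` by two reflections which almost fix the vectors `e i`. Conversely let `A x` be the
second derivative of the squared norm at `x` (theorem `hessian_field` of the starting files `Pool/Agent/Y278/Rot/*`).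
The functions `x ↦ A x v v` are slow because `A (T x) v v = A x (T⁻¹ v) (T⁻¹ v)`, and the mean over `x` is an invariant
quadratic form equivalent to the square of the norm.
-/

set_option autoImplicit false

namespace Pool.Agent.Results.MP_cc72b1_an.InvariantMeansOnSphere

open Pool.Agent.Q199.IM

theorem result :
    ∀ (E : Type) [NormedAddCommGroup E] [NormedSpace ℝ E] [CompleteSpace E]
      [TopologicalSpace.SeparableSpace E] (H : Type) [NormedAddCommGroup H]
      [InnerProductSpace ℝ H], Nonempty (E ≃L[ℝ] H) → ¬ FiniteDimensional ℝ E →
      (∀ x y : E, ‖x‖ = 1 → ‖y‖ = 1 → ∃ T : E ≃ₗᵢ[ℝ] E, T x = y) →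
      ((∃ M : (E → ℝ) → ℝ, IsInvMean M) ↔
        ∃ (F : Type) (_ : NormedAddCommGroup F) (_ : InnerProductSpace ℝ F) (_ : CompleteSpace F),
          Nonempty (E ≃ₗᵢ[ℝ] F)) := by
  intro E _ _ _ _ H _ _ hΦ hinf hG
  obtain ⟨Φ⟩ := hΦ
  constructor
  · rintro ⟨M, hM⟩
    have key := fwd Φ hG hinf hM
    exact ⟨E, inferInstance, InnerProductSpace.ofNorm ℝ key, inferInstance,
      ⟨LinearIsometryEquiv.refl ℝ E⟩⟩
  · rintro ⟨F, _, _, _, ⟨ι⟩⟩
    exact bwd ι hinf

end Pool.Agent.Results.MP_cc72b1_an.InvariantMeansOnSphere
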